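import Pool.Agent.W206.YP.Stm

/-!
# Existence of the system
-/

set_option autoImplicit false

namespace Pool.Agent.W303.YP.SY

open MvPolynomial H294ZP Pool.Agent.W206.CT Pool.Agent.W206.YP

/-- transfer of algebraicity -/
theorem alg_transfer {ι : Type} (w : ι → ℂ) (I : Set ι) (F : IntermediateField ℚ ℂ)
    (hF : ∀ i ∈ I, w i ∈ F) (x : ℂ)
    (hx : IsAlgebraic (IntermediateField.adjoin Qb (w '' I)) x) : IsAlgebraic F x := by
  have hA : ∀ y ∈ IntermediateField.adjoin Qb (w '' I), IsAlgebraic F y := by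
    intro y hy
    induction hy using IntermediateField.adjoin_induction with
    | mem y hy =>
      obtain ⟨i, hi, rfl⟩ := hy
      exact isAlgebraic_algebraMap (⟨w i, hF i hi⟩ : F)
    | algebraMap q =>
      have h1 : IsAlgebraic ℚ (q : ℂ) := mem_algebraicClosure_iff.1 q.2
      exact h1.tower_top F
    | add a b _ _ ha hb => exact ha.add hb
    | inv a _ ha => exact ha.inv
    | mul a b _ _ ha hb => exact ha.mul hb
  let φ : IntermediateField.adjoin Qb (w '' I) →+* algebraicClosure F ℂ :=
    RingHom.codRestrict (algebraMap (IntermediateField.adjoin Qb (w '' I)) ℂ)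
      (algebraicClosure F ℂ).toSubfield (fun y => mem_algebraicClosure_iff.2 (hA y y.2))
  have hφ : (algebraMap (algebraicClosure F ℂ) ℂ).comp φ =
      algebraMap (IntermediateField.adjoin Qb (w '' I)) ℂ := by
    ext y
    rfl
  obtain ⟨p, hp, h0⟩ := hx
  have h1 : IsAlgebraic (algebraicClosure F ℂ) x := by
    refine ⟨p.map φ, (Polynomial.map_ne_zero_iff φ.injective).2 hp, ?_⟩
    rw [Polynomial.aeval_def, Polynomial.eval₂_map, hφ]
    exact h0
  exact h1.restrictScalars F

theorem main : S_SY := by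
  classical
  intro hLI hCO hIND ι _ w d _ hd hd'
  obtain ⟨I, -, hI, hIm⟩ := hCO Qb ℂ ι w
  have hIc : I.card = d := by
    have h1 := (hIm d).1 hd
    have h2 : ¬ (d + 1 ≤ I.card) := fun h => hd' ((hIm (d + 1)).2 h)
    omega
  obtain ⟨t, ht⟩ := hIND.2 (IntermediateField.adjoin Qb (Set.range w))
    (hIND.1 _ (Set.finite_range w).countable) (Option ι ⊕ ι)
  set K := IntermediateField.adjoin Qb (Set.range w) with hK
  have hwK : ∀ i, w i ∈ K := fun i => IntermediateField.subset_adjoin _ _ ⟨i, rfl⟩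
  have htr : ∀ v, ∀ k ∈ K, t v ≠ k := by
    intro v k hk h
    have h1 := ht.transcendental v
    rw [h] at h1
    exact h1 (isAlgebraic_algebraMap (⟨k, hk⟩ : K))
  let μ : ℂ := t (Sum.inl none)
  let lam : ι → ℂ := fun i => t (Sum.inl (some i))
  have hμ : μ ≠ 0 := htr _ 0 K.zero_mem
  have hxb : ∀ b, xb w lam μ b ≠ 0 := by
    rintro (_ | (i | i))
    · exact hμ
    · exact htr _ 0 K.zero_mem
    · intro h
      refine htr (Sum.inl (some i)) (- w i) (K.neg_mem (hwK i)) ?_
      change w i + t (Sum.inl (some i)) = 0 at h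
      linear_combination h
  let J : Finset (Bs ι) := Finset.univ.filter (fun b => ∀ i, b = some (Sum.inr i) → i ∈ I)
  have hex : ∀ l : {i // i ∉ I}, ∃ (r : ℕ) (ε : Fin r → ℤ) (e : Fin r → Bs ι → ℕ),
      (∀ j, ε j = 1 ∨ ε j = -1) ∧ (∀ j i, i ∉ J → i ≠ some (Sum.inr l.1) → e j i = 0) ∧
      (∑ j, (ε j : ℂ) * ∏ i, xb w lam μ i ^ e j i = 0) ∧
      (∑ j, (e j (some (Sum.inr l.1)) : ℂ) * ((ε j : ℂ) * ∏ i, xb w lam μ i ^ e j i) ≠ 0) ∧
      Function.Injective (fun j : Fin r =>
        ∑ i ∈ Finset.univ.filter (fun i : Fin r => i < j), (ε i : ℂ) *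
          ∏ s, xb w lam μ s ^ e i s) := by
    intro l
    refine hLI (Bs ι) ℂ (xb w lam μ) J (some (Sum.inr l.1)) ?_ hxb ?_
    · intro h
      exact l.2 ((Finset.mem_filter.1 h).2 l.1 rfl)
    · have hmem : ∀ b ∈ J, xb w lam μ b ∈
          IntermediateField.adjoin ℚ (xb w lam μ '' (J : Set (Bs ι))) :=
        fun b hb => IntermediateField.subset_adjoin _ _ ⟨b, hb, rfl⟩
      have hlam : ∀ i, lam i ∈ IntermediateField.adjoin ℚ (xb w lam μ '' (J : Set (Bs ι))) := by
        intro i
        refine hmem (some (Sum.inl i)) (Finset.mem_filter.2 ⟨Finset.mem_univ _, ?_⟩)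
        intro i' h
        simp at h
      have h1 : IsAlgebraic (IntermediateField.adjoin ℚ (xb w lam μ '' (J : Set (Bs ι))))
          (w l.1) := by
        refine alg_transfer w (I : Set ι) _ ?_ _ (hI l.1)
        intro i hi
        have h2 := hmem (some (Sum.inr i)) (Finset.mem_filter.2 ⟨Finset.mem_univ _, by
          intro i' h
          simp only [Option.some.injEq, Sum.inr.injEq] at h
          rw [← h]
          exact hi⟩)
        have h3 : w i = xb w lam μ (some (Sum.inr i)) - lam i := by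
          change w i = w i + lam i - lam i
          ring
        rw [h3]
        exact IntermediateField.sub_mem _ h2 (hlam i)
      exact h1.add (isAlgebraic_algebraMap (⟨lam l.1, hlam l.1⟩ :
        IntermediateField.adjoin ℚ (xb w lam μ '' (J : Set (Bs ι)))))
  choose r ε e hε he hs hder hinj using hex
  let D : ℕ := 1 + ∑ l, ∑ j, ∑ b, e l j b
  have hD : ∀ l j, ∑ b, e l j b ≤ D := by
    intro l j
    have h1 : ∑ b, e l j b ≤ ∑ j, ∑ b, e l j b :=
      Finset.single_le_sum (f := fun j => ∑ b, e l j b) (fun _ _ => Nat.zero_le _)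
        (Finset.mem_univ j)
    have h2 : ∑ j, ∑ b, e l j b ≤ ∑ l, ∑ j, ∑ b, e l j b :=
      Finset.single_le_sum (f := fun l => ∑ j, ∑ b, e l j b) (fun _ _ => Nat.zero_le _)
        (Finset.mem_univ l)
    change _ ≤ 1 + ∑ l, ∑ j, ∑ b, e l j b
    omega
  have hD1 : ∀ l j b, e l j b < D + 1 := by
    intro l j b
    have h1 : e l j b ≤ ∑ b, e l j b :=
      Finset.single_le_sum (f := fun b => e l j b) (fun _ _ => Nat.zero_le _)
        (Finset.mem_univ b)
    have h2 := hD l j
    omega
  let M : ∀ l, Fin (r l) → Ex ι D := fun l j => ⟨fun b => ⟨e l j b, hD1 l j b⟩, hD l j⟩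
  have htm : ∀ l j, tm ε M w lam μ l j =
      μ * ((ε l j : ℂ) * ∏ b, xb w lam μ b ^ e l j b) := by
    intro l j
    change (ε l j : ℂ) * (μ * ∏ b, xb w lam μ b ^ e l j b) = _
    ring
  refine ⟨{i // i ∉ I}, inferInstance, D, r, ε, M, lam, μ, fun i => t (Sum.inr i.1),
    Subtype.val, ?_, ?_⟩
  · rw [Fintype.card_subtype_compl]
    simp only [Fintype.card_coe]
    have := Finset.card_le_univ I
    omega
  · refine ⟨by change 0 < 1 + _; omega, Subtype.val_injective, hε, hxb, ?_, ?_, ?_, ?_, ?_⟩
    · have h1 := ht.comp (Sum.map id (Subtype.val : {i // i ∉ I} → ι))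
        (Function.Injective.sumMap Function.injective_id Subtype.val_injective)
      have h2 : t ∘ (Sum.map id (Subtype.val : {i // i ∉ I} → ι)) =
          Sum.elim (fun o : Option ι => o.elim μ lam) (fun i => t (Sum.inr i.1)) := by
        funext v
        rcases v with (_ | i) | i <;> rfl
      rw [← h2]
      exact h1
    · intro l
      rw [Finset.sum_congr rfl (fun j _ => htm l j), ← Finset.mul_sum, hs l, mul_zero]
    · intro l j l' hl
      refine he l j (some (Sum.inr l'.1)) ?_ ?_
      · intro h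
        exact l'.2 ((Finset.mem_filter.1 h).2 l'.1 rfl)
      · intro h
        simp only [Option.some.injEq, Sum.inr.injEq] at h
        exact hl (Subtype.ext h)
    · intro l
      have h1 : ∑ j, (((M l j).1 (some (Sum.inr l.1)) : ℕ) : ℂ) * tm ε M w lam μ l j =
          μ * ∑ j, (e l j (some (Sum.inr l.1)) : ℂ) *
            ((ε l j : ℂ) * ∏ i, xb w lam μ i ^ e l j i) := by
        rw [Finset.mul_sum]
        refine Finset.sum_congr rfl (fun j _ => ?_)
        rw [htm l j]
        change (e l j (some (Sum.inr l.1)) : ℂ) * _ = _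
        ring
      rw [h1]
      exact mul_ne_zero hμ (hder l)
    · intro l j j' h
      refine hinj l ?_
      unfold Pool.Agent.W206.CT.psum at h
      rw [Finset.sum_congr rfl (fun j _ => htm l j),
        Finset.sum_congr rfl (fun j _ => htm l j), ← Finset.mul_sum, ← Finset.mul_sum] at h
      exact mul_left_cancel₀ hμ h

end Pool.Agent.W303.YP.SY
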